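import Pool.Agent.N39.RW.Pages

set_option autoImplicit false

/-!
# Triples `n, n + a, n + b` of a prime, a product of two primes and an almost prime: in all windows around a positive
# proportion of the integers, between consecutive powers, and at a positive proportion of the distances
-/

namespace Pool.Agent.Results.MP_c0d11e_nt.ChenTypeTriples

open Filter

/-- the members `n`, `n + a`, `n + b` of the triple -/
def member (a b : ℕ) (l : Fin 3) (n : ℕ) : ℕ := if l = 0 then n else if l = 1 then n + a else n + b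

/-- no prime divides one of the three members for all `n` -/
def Admissible (a b : ℕ) : Prop := ∀ p : ℕ, p.Prime → ∃ n : ℕ, ∀ l, ¬ p ∣ member a b l n

/-- the member `i` is prime, the member `j` is a product of at most two primes, and all three members are products of
at most `r` primes, all larger than `z` -/
def Good (a b : ℕ) (i j : Fin 3) (r : ℕ) (z : ℝ) (n : ℕ) : Prop :=
  (member a b i n).Prime ∧ (member a b j n).primeFactorsList.length ≤ 2 ∧
    ∀ l, (member a b l n).primeFactorsList.length ≤ r ∧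
      ∀ q : ℕ, q.Prime → q ∣ member a b l n → z < (q : ℝ)

/-- all prime factors of all three members are larger than `z` -/
def Sieved (a b : ℕ) (z : ℝ) (n : ℕ) : Prop :=
  ∀ l, ∀ q : ℕ, q.Prime → q ∣ member a b l n → z < (q : ℝ)

/-- `t` is regular: in ALL windows `(u, v]` with `u ≤ t ≤ v` and `K (log t) ^ 3 ≤ v - u ≤ t` there are at
least `c₁ (v - u) / (log t) ^ 3` good `n`, and at most `c₂ (v - u) / (log t) ^ 3` sieved `n`. -/
def Regular (a b : ℕ) (i j : Fin 3) (r : ℕ) (c₁ c₂ K : ℝ) (t : ℕ) : Prop :=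
  ∀ u v : ℕ, u ≤ t → t ≤ v → K * Real.log t ^ 3 ≤ (v : ℝ) - u → (v : ℝ) - u ≤ t →
    c₁ * ((v : ℝ) - u) / Real.log t ^ 3 ≤
      ({n : ℕ | u < n ∧ n ≤ v ∧ Good a b i j r ((t : ℝ) ^ (1 / (r : ℝ))) n}.ncard : ℝ) ∧
    ({n : ℕ | u < n ∧ n ≤ v ∧ Sieved a b ((t : ℝ) ^ (1 / (r : ℝ))) n}.ncard : ℝ) ≤
      c₂ * ((v : ℝ) - u) / Real.log t ^ 3

theorem mem_form (a b : ℕ) (l : Fin 3) (n : ℕ) :
    ((member a b l n : ℕ) : ℤ) = (((fun _ => 1 : Fin 3 → ℕ) l : ℕ) : ℤ) * n + (![0, (a : ℤ), (b : ℤ)] : Fin 3 → ℤ) l := by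
  unfold member
  fin_cases l <;> simp

theorem adm_small (a b : ℕ) (h2 : ∀ l, ¬ 2 ∣ member a b l 1) (h3 : ∃ n, ∀ l, ¬ 3 ∣ member a b l n) :
    Admissible a b := by
  intro p hp
  rcases Nat.lt_or_ge p 4 with h4 | h4
  · have h5 : p = 2 ∨ p = 3 := by
      have := hp.two_le
      omega
    rcases h5 with rfl | rfl
    · exact ⟨1, h2⟩
    · exact h3
  · classical
    by_contra hcon
    push Not at hcon
    have h6 : ∀ n ∈ Finset.range p, ∃ l : Fin 3, p ∣ member a b l n := fun n _ => hcon n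
    choose! f hf using h6
    have h7 : Set.InjOn f (Finset.range p : Set ℕ) := by
      intro n hn m hm he
      rw [Finset.mem_coe, Finset.mem_range] at hn hm
      have h8 := hf n (Finset.mem_range.2 hn)
      have h9 := hf m (Finset.mem_range.2 hm)
      rw [he] at h8
      have h10 : (p : ℤ) ∣ (n : ℤ) - m := by
        have e : (n : ℤ) - m = (member a b (f m) n : ℤ) - (member a b (f m) m : ℤ) := by
          rw [mem_form, mem_form]
          simp
        rw [e]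
        exact dvd_sub (Int.natCast_dvd_natCast.2 h8) (Int.natCast_dvd_natCast.2 h9)
      have h11 : |(n : ℤ) - m| < p := by
        rw [abs_lt]
        constructor <;> omega
      have := Int.eq_zero_of_abs_lt_dvd h10 h11
      omega
    have h8 := Finset.card_le_card_of_injOn (s := Finset.range p) (t := (Finset.univ : Finset (Fin 3))) f
      (fun n _ => Finset.mem_univ _) h7
    rw [Finset.card_range, Finset.card_univ, Fintype.card_fin] at h8
    omega

theorem result : Admissible 2 6 ∧ Admissible 4 6 ∧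
    ∀ (a b : ℕ) (i j : Fin 3), 0 < a → a < b → Admissible a b → i ≠ j →
    ∃ r : ℕ, 1 ≤ r ∧
    (∃ c₁ c₂ K : ℝ, 0 < c₁ ∧ 0 < c₂ ∧ 0 < K ∧
      (∃ μ : ℝ, 0 < μ ∧ ∀ᶠ x : ℕ in atTop,
        μ * x ≤ ({t : ℕ | t ≤ x ∧ Regular a b i j r c₁ c₂ K t}.ncard : ℝ)) ∧
      ∀ e : ℕ, 2 ≤ e → ∃ ν : ℝ, 0 < ν ∧ ∀ᶠ N : ℕ in atTop, ν * N ≤
        ({m : ℕ | N ≤ m ∧ m < 2 * N ∧
          ν * (m : ℝ) ^ (e - 1) ≤
            ({t : ℕ | m ^ e < t ∧ t < (m + 1) ^ e ∧ Regular a b i j r c₁ c₂ K t}.ncard : ℝ) ∧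
          ν * (m : ℝ) ^ (e - 1) / Real.log m ^ 3 ≤
            ({n : ℕ | m ^ e < n ∧ n < (m + 1) ^ e ∧
              Good a b i j r ((m : ℝ) ^ ((e : ℝ) / r)) n}.ncard : ℝ)}.ncard : ℝ)) ∧
    ∃ c C K : ℝ, 0 < c ∧ 0 < C ∧ 0 < K ∧ ∀ᶠ X : ℕ in atTop,
      ∀ H : ℕ, K * Real.log X ^ 3 ≤ H → H ≤ X →
      c * H ≤ ({d : ℕ | 1 ≤ d ∧ d ≤ H ∧
        c * X / Real.log X ^ 6 ≤ ({n : ℕ | X < n ∧ n + d ≤ 2 * X ∧
          Good a b i j r ((X : ℝ) ^ (1 / (r : ℝ))) n ∧ Good a b i j r ((X : ℝ) ^ (1 / (r : ℝ))) (n + d)}.ncard : ℝ) ∧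
        ({n : ℕ | X < n ∧ n + d ≤ 2 * X ∧
          Sieved a b ((X : ℝ) ^ (1 / (r : ℝ))) n ∧ Sieved a b ((X : ℝ) ^ (1 / (r : ℝ))) (n + d)}.ncard : ℝ) ≤
            C * X / Real.log X ^ 6}.ncard : ℝ) := by
  refine ⟨adm_small 2 6 (by decide) ⟨2, by decide⟩, adm_small 4 6 (by decide) ⟨1, by decide⟩, ?_⟩
  intro a b i j ha hab hadm hij
  obtain ⟨r, hr, H⟩ := Pool.Agent.N39.RW.pageL (fun _ => 1 : Fin 3 → ℕ) (![0, (a : ℤ), (b : ℤ)] : Fin 3 → ℤ)
    (fun _ => Nat.one_pos)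
    (by
      intro l l' _ h
      fin_cases l <;> fin_cases l' <;> simp at h <;> first | rfl | omega)
    (by
      intro p hp
      obtain ⟨n, hn⟩ := hadm p hp
      refine ⟨n, fun l h => hn l ?_⟩
      rw [← mem_form] at h
      exact Int.natCast_dvd_natCast.1 h)
    (member a b) (fun l n _ => mem_form a b l n) i j hij
  obtain ⟨⟨c₁, c₂, K, hc₁, hc₂, hK, huse⟩, c, C, K', hc, hC, hK', hd⟩ := H i j (Or.inl ⟨rfl, rfl⟩)
  refine ⟨r, hr, ⟨c₁, c₂, K, hc₁, hc₂, hK, ?_⟩, c, C, K', hc, hC, hK', ?_⟩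
  · exact huse (Regular a b i j r c₁ c₂ K) (fun t ht => ht)
  · exact hd

end Pool.Agent.Results.MP_c0d11e_nt.ChenTypeTriples
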