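import Pool.Agent.N625.PT.X17

/-!
# Prime tuples `p, p + H_1, ..., p + H_s` with `p` in an arbitrary dense set of primes, for independent random multiples `H_j`
of a small primorial

Nothing is used besides Mathlib in the statement: `∑ v ∈ piFinset (fun _ => range (b ^ k)), (if P v then 0 else ∏ j, μ j (v j))`
is the probability that the vector of the independent random integers `v j < b ^ k` with the distributions `μ j` does not have
the property `P`.
-/

set_option autoImplicit false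

open Finset

namespace Pool.Agent.Results.MP_c0d11e_nt.DenseSetsOfPrimes

/-- The probability, for the distribution `μ` on the words of `k` digits (the integers `v < b ^ k`), that the word begins with
the `i` digits of `u < b ^ i`. -/
noncomputable def begins (b k : ℕ) (μ : ℕ → ℝ) (i u : ℕ) : ℝ := ∑ w ∈ range (b ^ (k - i)), μ (u * b ^ (k - i) + w)

/-- `p` is a probability on the words of `k` digits in base `b`, read as integers `v < b ^ k`. There is another probability
`μ` with `p ≤ k ^ T μ` such that after every beginning `u` two different blocks `a`, `a'` of `L` digits can be exchanged: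
`p (u a w) = r p (u a' w)` for all endings `w`, with a factor `r` between `η` and `1 / η` which does not depend on `w`; and
given the beginning `u`, each of the two blocks comes next with a probability of at least `η` in the distribution `μ`.
(For `T = 0` one has `μ = p`. For the uniform distribution on a set of words `r` is `1`.) -/
structure Exchangeable (b L : ℕ) (η : ℝ) (T k : ℕ) (p : ℕ → ℝ) : Prop where
  nonneg : ∀ v, 0 ≤ p v
  sum : ∑ v ∈ range (b ^ k), p v = 1
  dominated : ∃ μ : ℕ → ℝ, (∀ v, 0 ≤ μ v) ∧ ∑ v ∈ range (b ^ k), μ v = 1 ∧ (∀ v < b ^ k, p v ≤ (k : ℝ) ^ T * μ v) ∧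
    ∀ i u : ℕ, i + L ≤ k → u < b ^ i → ∃ (a a' : ℕ) (r : ℝ), a < a' ∧ a' < b ^ L ∧ η ≤ r ∧ η * r ≤ 1 ∧
      (∀ w < b ^ (k - (i + L)), p ((b ^ L * u + a) * b ^ (k - (i + L)) + w) = r * p ((b ^ L * u + a') * b ^ (k - (i + L)) + w)) ∧
      η * begins b k μ i u ≤ begins b k μ (i + L) (b ^ L * u + a) ∧
      η * begins b k μ i u ≤ begins b k μ (i + L) (b ^ L * u + a')

/-- the product of `1 - 1/q` over the primes `q ≤ y` -/
noncomputable def V (y : ℕ) : ℝ := ∏ q ∈ (Icc 1 y).filter Nat.Prime, (1 - 1 / (q : ℝ))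

/-- the multiple of the product of the primes `≤ y` given by the integers `h` and `c + κ v` -/
def Nv (y h : ℕ) (c κ : ℤ) (v : ℕ) : ℤ := ((primorial y * h : ℕ) : ℤ) * (c + κ * v)

/-- the `p ∈ S` such that `p + H_1, ..., p + H_t` are primes (`H_j` is written `H (j - 1)`) -/
def Tuples {s : ℕ} (S : Finset ℕ) (t : ℕ) (H : Fin s → ℤ) : Finset ℕ :=
  S.filter (fun p : ℕ => ∀ j : Fin s, (j : ℕ) < t → ((p : ℤ) + H j).toNat.Prime)

/-- the primes `≤ x` -/
def Primes (x : ℕ) : Finset ℕ := (Icc 1 x).filter Nat.Prime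

lemma begins_sum (b k : ℕ) (μ : ℕ → ℝ) (i u : ℕ) (hi : i < k) :
    ∑ a ∈ range b, begins b k μ (i + 1) (b * u + a) = begins b k μ i u := by
  unfold begins
  obtain ⟨n, hn⟩ : ∃ n, k - i = n + 1 := ⟨k - i - 1, by omega⟩
  have h1 : k - (i + 1) = n := by omega
  rw [h1, hn, pow_succ, mul_comm (b ^ n) b, Pool.Agent.N625.PT.sum_blocks b (b ^ n)]
  apply sum_congr rfl
  intro a _
  apply sum_congr rfl
  intro w _
  congr 1
  ring

lemma flex_of {b L T k : ℕ} {η : ℝ} {p : ℕ → ℝ} (hp : Exchangeable b L η T k p) : Pool.Agent.N625.PT.Flex b L η T k p := by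
  obtain ⟨h0, h1, μ, m0, m1, m2, m3⟩ := hp
  have hT : (0 : ℝ) ≤ (k : ℝ) ^ T := by positivity
  have hb0 : ∀ i u, 0 ≤ begins b k μ i u := fun i u => sum_nonneg fun w _ => m0 _
  refine ⟨h0, h1, fun i u => (k : ℝ) ^ T * begins b k μ i u, fun i u => mul_nonneg hT (hb0 i u), ?_, ?_, ?_, ?_⟩
  · intro v hv
    refine (m2 v hv).trans (le_of_eq ?_)
    unfold begins
    simp
  · intro i hi u _
    simp only
    rw [← mul_sum, begins_sum b k μ i u hi]
  · simp only
    have : begins b k μ 0 0 = 1 := by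
      unfold begins
      simpa using m1
    rw [this, mul_one]
  · intro i u hi hu
    obtain ⟨a, a', r, q1, q2, q3, q4, q5, q6, q7⟩ := m3 i u hi hu
    refine ⟨a, a', r, q1, q2, q3, q4, q5, ?_, ?_⟩
    · simp only
      calc η * ((k : ℝ) ^ T * begins b k μ i u) = (k : ℝ) ^ T * (η * begins b k μ i u) := by ring
        _ ≤ _ := mul_le_mul_of_nonneg_left q6 hT
    · simp only
      calc η * ((k : ℝ) ^ T * begins b k μ i u) = (k : ℝ) ^ T * (η * begins b k μ i u) := by ring
        _ ≤ _ := mul_le_mul_of_nonneg_left q7 hT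

/-- Let `v 0, ..., v (s - 1)` be independent random integers, `v j < b ^ k`, whose distributions `μ j` have
exchangeable blocks of digits, let `y` be between `θ log k` and `K₁ log k` (`θ > 0` is arbitrary), `M` the product of the
primes `≤ y`, `|c j| ≤ B b ^ k`, `1 ≤ h j ≤ k ^ J`, `H_{j+1} = M (h j) (c j + (κ j) (v j))`, and let `X` be an integer with
`b ^ k ≤ X k ^ C`, `X ≤ b ^ k k ^ C`. (1) Let `S` be ANY set of at least `X / k ^ A` primes `p ≤ X`. With a probability of at
least `1 - ε` one has: if all `H_j` are `≥ 0`, then for EVERY `t ≤ s` the number of the `p ∈ S` such that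
`p + H_1, ..., p + H_t` are primes differs from the expected number `E_t = #S / (V y log b ^ k) ^ t` by at most `ε E_t`.
(2) This holds for the set of all primes `p ≤ X`. -/
theorem result : ∀ (b L : ℕ), 2 ≤ b → 1 ≤ L → ∀ η : ℝ, 0 < η → η ≤ 1 → ∀ (s T₀ : ℕ) (κ : Fin s → ℤ),
    (∀ j, κ j ≠ 0) → ∀ (B J A C K₁ : ℕ) (θ : ℝ), 0 < θ → ∀ ε : ℝ, 0 < ε → ε ≤ 1 → ∃ k₀ : ℕ, ∀ k : ℕ, k₀ ≤ k →
    ∀ μ : Fin s → ℕ → ℝ, (∀ j, Exchangeable b L η T₀ k (μ j)) → ∀ y : ℕ, θ * Real.log k ≤ y → y ≤ K₁ * Real.log k →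
    ∀ c : Fin s → ℤ, (∀ j, |c j| ≤ B * (b : ℤ) ^ k) → ∀ h : Fin s → ℕ, (∀ j, 1 ≤ h j ∧ h j ≤ k ^ J) →
    ∀ X : ℕ, b ^ k ≤ X * k ^ C → X ≤ b ^ k * k ^ C →
      (∀ S : Finset ℕ, S ⊆ Primes X → (X : ℝ) ≤ S.card * (k : ℝ) ^ A →
        ∑ v ∈ Fintype.piFinset (fun _ : Fin s => range (b ^ k)), (if (∀ j, 0 ≤ Nv y (h j) (c j) (κ j) (v j)) → ∀ t : ℕ, t ≤ s →
          |((Tuples S t (fun j => Nv y (h j) (c j) (κ j) (v j))).card : ℝ) - S.card / (V y * (k * Real.log b)) ^ t| ≤
            ε * (S.card / (V y * (k * Real.log b)) ^ t) then 0 else ∏ j, μ j (v j)) ≤ ε) ∧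
      ∑ v ∈ Fintype.piFinset (fun _ : Fin s => range (b ^ k)), (if (∀ j, 0 ≤ Nv y (h j) (c j) (κ j) (v j)) → ∀ t : ℕ, t ≤ s →
          |((Tuples (Primes X) t (fun j => Nv y (h j) (c j) (κ j) (v j))).card : ℝ) -
              (Primes X).card / (V y * (k * Real.log b)) ^ t| ≤
            ε * ((Primes X).card / (V y * (k * Real.log b)) ^ t) then 0 else ∏ j, μ j (v j)) ≤ ε := by
  classical
  intro b L hb hL η hη0 hη1 r T₀ κ hκ B J A C K₁ θ hθ ε hε hε1
  obtain ⟨k₀, h0⟩ := Pool.Agent.N625.PT.tuple_lawP b L hb hL η hη0 hη1 r κ hκ T₀ B J (A + 4) C K₁ θ hθ ε hε hε1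
  obtain ⟨k₁, h1⟩ := Pool.Agent.N625.PT.primes_dense b C hb
  refine ⟨max (max k₀ k₁) 1, fun k hk μ hμ y hy1 hy2 c hc h hh X hX1 hX2 => ?_⟩
  have hkr : (1 : ℝ) ≤ k := by exact_mod_cast (by omega : 1 ≤ k)
  have main : ∀ S : Finset ℕ, S ⊆ Primes X → (X : ℝ) ≤ S.card * (k : ℝ) ^ (A + 4) →
        ∑ v ∈ Fintype.piFinset (fun _ : Fin r => range (b ^ k)), (if (∀ j, 0 ≤ Nv y (h j) (c j) (κ j) (v j)) → ∀ t : ℕ, t ≤ r →
          |((Tuples S t (fun j => Nv y (h j) (c j) (κ j) (v j))).card : ℝ) - S.card / (V y * (k * Real.log b)) ^ t| ≤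
            ε * (S.card / (V y * (k * Real.log b)) ^ t) then 0 else ∏ j, μ j (v j)) ≤ ε := by
    intro S hS hSA
    have hSp : ∀ p ∈ S, p.Prime := fun p hp => (mem_filter.1 (hS hp)).2
    have h5 := h0 k (by omega) μ (fun j => flex_of (hμ j)) y hy1 hy2 c hc h hh X hX1 hX2 S (hS.trans (filter_subset _ _))
      hSp hSA (fun _ => 1) (fun _ => Or.inl rfl)
    refine le_trans (sum_le_sum fun v _ => ?_) h5
    have hw0 : 0 ≤ ∏ j, μ j (v j) := prod_nonneg fun j _ => (hμ j).nonneg _
    split_ifs with q1 q2 q2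
    · exact le_rfl
    · exact hw0
    · exfalso
      apply q1
      intro q3 t ht
      have q4 := q2 (fun j p hp => by
        have g1 := q3 j
        have g2 : Nv y (h j) (c j) (κ j) (v j) = Pool.Agent.N625.PT.Nm y (h j) (c j) (κ j) (v j) := rfl
        have g3 : (1 : ℤ) ≤ (p : ℤ) := by exact_mod_cast (hSp p hp).one_lt.le
        rw [← g2]
        linarith) t ht
      have e1 : (Tuples S t (fun j => Nv y (h j) (c j) (κ j) (v j))).card =
          (S.filter (fun i => ∀ j : Fin r, (j : ℕ) < t → (Pool.Agent.N625.PT.Nm y (h j) (c j) (κ j) (v j) + 1 * (i : ℕ)).toNat.Prime)).card := by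
        unfold Tuples
        congr 1
        apply filter_congr
        intro i _
        have g4 : ∀ j : Fin r, ((i : ℤ) + Nv y (h j) (c j) (κ j) (v j)) =
            Pool.Agent.N625.PT.Nm y (h j) (c j) (κ j) (v j) + 1 * (i : ℕ) := by
          intro j
          have g2 : Nv y (h j) (c j) (κ j) (v j) = Pool.Agent.N625.PT.Nm y (h j) (c j) (κ j) (v j) := rfl
          rw [g2]
          ring
        simp_rw [g4]
      rw [e1]
      exact q4
    · exact le_rfl
  refine ⟨fun S hS hSA => main S hS (hSA.trans ?_), main (Primes X) (Subset.refl _) ?_⟩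
  · apply mul_le_mul_of_nonneg_left _ (Nat.cast_nonneg _)
    exact pow_le_pow_right₀ (by linarith) (by omega)
  · have := h1 k (by omega) X hX1 hX2 0 (Nat.zero_le _)
    refine (le_trans this ?_)
    have e1 : ((Icc 1 X).filter (fun p : ℕ => p.Prime ∧ 0 < p)).card = (Primes X).card := by
      unfold Primes
      congr 1
      apply filter_congr
      intro p _
      exact ⟨fun h => h.1, fun h => ⟨h, h.pos⟩⟩
    rw [e1]
    apply mul_le_mul_of_nonneg_left _ (Nat.cast_nonneg _)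
    exact pow_le_pow_right₀ (by linarith) (by omega)

end Pool.Agent.Results.MP_c0d11e_nt.DenseSetsOfPrimes
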