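import Pool.Agent.N646.TT.Fin3

set_option autoImplicit false

/-!
# One third of the even differences extend to many prime triples and `k`-tuples of the right order

For `k ≥ 1` and `ε > 0` there is `c > 0` such that for every `λ > 0` there is `κ > 0`: for all large `x` and
EVERY `H` between `λ log x` and `x / 100`, at least `(1/3 - ε) H` of the `d ≤ H` have the property that for
at least `c H ^ k` of the vectors `t ∈ [-H, H] ^ k` there are at least `κ x / (log x) ^ (k + 2)` primes
`p ≤ x` with `p + 2 d` and all `p + 2 t_i` prime. The case `k = 1` concerns prime triples.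

Proof: as in `MP_678834_nt.OneThirdRightOrder` (quadruples with all differences in a set of more than two
thirds of the numbers, `Pool.Agent.TH899.UG.TD.quad`; boxes by Jensen's inequality), but with `k + 1`
classes in each of the four groups: `k + 2` of the `4 (k + 1)` classes are hit with the right order
(`Pool.Agent.N646.RG.sHITM2`), hence two groups, and the configurations in which a pair with a bad
difference is extended by `k` more points are few.
-/

namespace Pool.Agent.Results.MP_c0d11e_nt.ExtensionsOfOneThird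

open Finset Filter

/-- the number of the primes `p ≤ x` for which `p + 2 d` and all `p + 2 t_i` are (positive) primes -/
def primeCount {k : ℕ} (x d : ℕ) (t : Fin k → ℤ) : ℕ :=
  ((Icc 1 x).filter (fun p : ℕ => p.Prime ∧ (p + 2 * d).Prime ∧
    ∀ i, ((p : ℤ) + 2 * t i).toNat.Prime)).card

open Classical in
/-- the number of the vectors `t` with `k` different coordinates in `[-H, H]`, none of them `0` or `d`, for
which the prime count is at least `κ x / (log x) ^ (k + 2)` -/
noncomputable def extensions (k : ℕ) (κ : ℝ) (x H d : ℕ) : ℕ :=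
  ((Fintype.piFinset (fun _ : Fin k => Icc (-(H : ℤ)) H)).filter (fun t : Fin k → ℤ =>
    Function.Injective t ∧ (∀ i, t i ≠ 0 ∧ t i ≠ d) ∧
      κ * (x / Real.log x ^ (k + 2)) ≤ (primeCount x d t : ℝ))).card

open Classical in
theorem result (k : ℕ) (_hk : 1 ≤ k) (ε : ℝ) (hε : 0 < ε) : ∃ c : ℝ, 0 < c ∧ ∀ lam : ℝ, 0 < lam →
    ∃ κ : ℝ, 0 < κ ∧ ∃ X : ℕ, ∀ x : ℕ, X ≤ x → ∀ H : ℕ, lam * Real.log x ≤ H → 100 * H ≤ x →
    (1 / 3 - ε) * (H : ℝ) ≤
      (((Icc 1 H).filter (fun d : ℕ => c * (H : ℝ) ^ k ≤ (extensions k κ x H d : ℝ))).card : ℝ) := by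
  obtain ⟨c, hc, h⟩ := Pool.Agent.N646.TT.third_ext k ε hε
  refine ⟨c, hc, fun lam hlam => ?_⟩
  obtain ⟨κ, hκ, hev⟩ := h lam hlam
  obtain ⟨X, hX⟩ := eventually_atTop.1 hev
  exact ⟨κ, hκ, X, hX⟩

end Pool.Agent.Results.MP_c0d11e_nt.ExtensionsOfOneThird
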