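import Mathlib
import Pool.Agent.N732.GL.Fin
import Pool.Agent.N732.GS.Prob

set_option autoImplicit false
set_option linter.unusedSectionVars false

/-!
# Prime triples, and all systems of linear forms, in random models of the primes with a growing sieve

A random set `S` of integers is given by events `A n` (meaning `n ∈ S`), adapted to a filtration `ℱ`.  For
`n ∈ [2^j, 2^(j+1))` the event `A n` is empty if a prime of the finite set `P j` divides `n`; the sets are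
small, `∑_{p ∈ P j} log p = o(j)`, but contain all primes `≤ y j`, where `y j log (y j) / j → ∞` (for
example `P j` = the primes up to `j / log log j`).  For the other `n` the conditional probability of `A n`
given the past is asymptotic to `∏_{p ∈ P j} (1 - 1/p)^(-1) / log n`.  No independence is assumed.

A finite set `s` of pairs `(a, b)` stands for the linear forms `n ↦ a n + b`.
-/

open MeasureTheory Filter Set
open scoped Topology ENNReal

namespace Pool.Agent.Results.MP_c0d11e_nt.GrowingSieve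

/-- the number of residues `r` modulo `p` for which `p` divides `a r + b` for some form of `s` -/
def nu (s : Finset (ℕ × ℕ)) (p : ℕ) : ℕ := ((Finset.range p).filter fun r => ∃ f ∈ s, p ∣ f.1 * r + f.2).card

/-- no prime divides the product of the forms for all `n` -/
def Admissible (s : Finset (ℕ × ℕ)) : Prop := ∀ p : ℕ, p.Prime → nu s p < p

/-- the singular series of the system: the product over all primes `p` of
`(1 - nu s p / p) / (1 - 1 / p)^k`, `k` the number of forms -/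
noncomputable def sing (s : Finset (ℕ × ℕ)) : ℝ :=
  ∏' p : Nat.Primes, (1 - (nu s p : ℝ) / ((p : ℕ) : ℝ)) / (1 - 1 / ((p : ℕ) : ℝ)) ^ s.card

open Classical in
/-- the number of `X ≤ n < X + h` for which `a n + b` is in `S` for all forms of `s` -/
noncomputable def count (S : Set ℕ) (s : Finset (ℕ × ℕ)) (X h : ℕ) : ℕ :=
  ((Finset.Ico X (X + h)).filter fun n => ∀ f ∈ s, f.1 * n + f.2 ∈ S).card

open Classical in
/-- the number `P_n(p, p + a, p + b)` of the problem, for `S` instead of the primes -/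
noncomputable def triples (S : Set ℕ) (a b n : ℕ) : ℕ :=
  ((Finset.Icc 1 n).filter fun p => p ∈ S ∧ p + a ∈ S ∧ p + b ∈ S).card

/-- the constant of the problem -/
noncomputable def D : ℝ :=
  9 / 2 * ∏' p : {p : ℕ // p.Prime ∧ 3 < p}, ((p : ℕ) : ℝ) ^ 2 * (((p : ℕ) : ℝ) - 3) / (((p : ℕ) : ℝ) - 1) ^ 3

variable {Ω : Type}

lemma In_eq (A : ℕ → Set Ω) (n : ℕ) (ω : Ω) [Decidable (ω ∈ A n)] : Pool.Agent.R528.RM.In A n ω = if ω ∈ A n then 1 else 0 := by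
  classical
  unfold Pool.Agent.R528.RM.In
  rw [Set.indicator_apply]

lemma count_eq (A : ℕ → Set Ω) (ω : Ω) (s : Finset (ℕ × ℕ)) (X h : ℕ) :
    ∑ n ∈ Finset.Ico X (X + h), ∏ f ∈ s, Pool.Agent.R528.RM.In A (f.1 * n + f.2) ω = (count {n : ℕ | ω ∈ A n} s X h : ℝ) := by
  classical
  unfold count
  rw [← Finset.sum_boole]
  refine Finset.sum_congr rfl fun n _ => ?_
  rw [Finset.prod_congr rfl fun f _ => In_eq A (f.1 * n + f.2) ω, Finset.prod_boole]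
  rfl

lemma count_tri (S : Set ℕ) (a b X h : ℕ) : count S (Pool.Agent.N732.GL.tri a b) X h =
    (letI := Classical.decPred fun p => p ∈ S ∧ p + a ∈ S ∧ p + b ∈ S
     ((Finset.Ico X (X + h)).filter fun p => p ∈ S ∧ p + a ∈ S ∧ p + b ∈ S).card) := by
  classical
  unfold count
  congr 1
  ext n
  simp [Pool.Agent.N732.GL.tri]

lemma triples_eq (S : Set ℕ) (a b n : ℕ) : triples S a b n = count S (Pool.Agent.N732.GL.tri a b) 1 n := by
  classical
  rw [count_tri]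
  unfold triples
  congr 1
  ext p
  simp only [Finset.mem_filter, Finset.mem_Icc, Finset.mem_Ico]
  constructor <;> rintro ⟨h1, h2⟩ <;> exact ⟨by omega, h2⟩

lemma triples_add (S : Set ℕ) (a b x h : ℕ) :
    (triples S a b (x + h) : ℝ) - triples S a b x = count S (Pool.Agent.N732.GL.tri a b) (x + 1) h := by
  classical
  rw [count_tri]
  unfold triples
  have h1 : (Finset.Icc 1 (x + h)).filter (fun p => p ∈ S ∧ p + a ∈ S ∧ p + b ∈ S) =
      (Finset.Icc 1 x).filter (fun p => p ∈ S ∧ p + a ∈ S ∧ p + b ∈ S) ∪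
      (Finset.Ico (x + 1) (x + 1 + h)).filter (fun p => p ∈ S ∧ p + a ∈ S ∧ p + b ∈ S) := by
    rw [← Finset.filter_union]
    congr 1
    ext p
    simp only [Finset.mem_union, Finset.mem_Icc, Finset.mem_Ico]
    omega
  rw [h1, Finset.card_union_of_disjoint]
  · rw [Nat.cast_add, add_sub_cancel_left]
    congr!
  · rw [Finset.disjoint_left]
    intro p hp1 hp2
    have g1 := (Finset.mem_Icc.1 (Finset.mem_filter.1 hp1).1)
    have g2 := (Finset.mem_Ico.1 (Finset.mem_filter.1 hp2).1)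
    omega

lemma prod_tri {a b : ℕ} (ha : a ≠ 0) (hb : b ≠ 0) (hab : a ≠ b) (v : ℕ) :
    ∏ f ∈ Pool.Agent.N732.GL.tri a b, Real.log ((f.1 * v + f.2 : ℕ) : ℝ) = Real.log (v : ℝ) * Real.log ((v + a : ℕ) : ℝ) * Real.log ((v + b : ℕ) : ℝ) := by
  unfold Pool.Agent.N732.GL.tri
  rw [Finset.prod_insert (by simp [Ne.symm ha, Ne.symm hb]), Finset.prod_insert (by simp [hab]), Finset.prod_singleton]
  simp only [one_mul, add_zero]
  ring

lemma ratio_bound {x v a b : ℕ} {δ : ℝ} (hx : 3 ≤ x) (hxv : x ≤ v) (hva : v + a ≤ 9 * x) (hvb : v + b ≤ 9 * x)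
    (hr : 1 - δ ≤ (Real.log x / Real.log (9 * x)) ^ 3) :
    1 - δ ≤ Real.log x ^ 3 / (Real.log (v : ℝ) * Real.log ((v + a : ℕ) : ℝ) * Real.log ((v + b : ℕ) : ℝ)) ∧
    Real.log x ^ 3 / (Real.log (v : ℝ) * Real.log ((v + a : ℕ) : ℝ) * Real.log ((v + b : ℕ) : ℝ)) ≤ 1 ∧
    0 < Real.log (v : ℝ) * Real.log ((v + a : ℕ) : ℝ) * Real.log ((v + b : ℕ) : ℝ) := by
  have hx0 : (3 : ℝ) ≤ x := by exact_mod_cast hx
  have hl : 0 < Real.log (x : ℝ) := Real.log_pos (by linarith)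
  have hb1 : ∀ w : ℕ, x ≤ w → w ≤ 9 * x → Real.log (x : ℝ) ≤ Real.log (w : ℝ) ∧ Real.log (w : ℝ) ≤ Real.log (9 * x) := by
    intro w h1 h2
    have h1' : (x : ℝ) ≤ w := by exact_mod_cast h1
    have h2' : (w : ℝ) ≤ 9 * x := by exact_mod_cast h2
    exact ⟨Real.log_le_log (by linarith) h1', Real.log_le_log (by linarith) h2'⟩
  obtain ⟨a1, a2⟩ := hb1 v hxv (by omega)
  obtain ⟨b1, b2⟩ := hb1 (v + a) (by omega) hva
  obtain ⟨c1, c2⟩ := hb1 (v + b) (by omega) hvb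
  set l := Real.log (x : ℝ)
  set m := Real.log (9 * (x : ℝ))
  set u := Real.log (v : ℝ)
  set u' := Real.log ((v + a : ℕ) : ℝ)
  set u'' := Real.log ((v + b : ℕ) : ℝ)
  have p1 : 0 < u := by linarith
  have p2 : 0 < u' := by linarith
  have p3 : 0 < u'' := by linarith
  have q0 : 0 < u * u' * u'' := by positivity
  have q1 : l ^ 3 ≤ u * u' * u'' := by
    calc l ^ 3 = l * l * l := by ring
      _ ≤ _ := mul_le_mul (mul_le_mul a1 b1 hl.le p1.le) c1 hl.le (by positivity)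
  have q2 : u * u' * u'' ≤ m ^ 3 := by
    calc u * u' * u'' ≤ m * m * m := mul_le_mul (mul_le_mul a2 b2 p2.le (by linarith)) c2 p3.le (by nlinarith)
      _ = m ^ 3 := by ring
  refine ⟨hr.trans ?_, (div_le_one q0).2 q1, q0⟩
  rw [div_pow]
  exact div_le_div_of_nonneg_left (by positivity) q0 q2

lemma trans_bound {T q l D h δ : ℝ} (hD : 0 < D) (hh : 0 < h) (hq : 0 < q) (hδ0 : 0 ≤ δ) (hδ1 : δ ≤ 1)
    (h1 : |T * q / (D * h) - 1| ≤ δ) (h2 : 1 - δ ≤ l / q) (h3 : l / q ≤ 1) : |T * l / (D * h) - 1| ≤ 2 * δ := by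
  have e1 : T * l / (D * h) = (T * q / (D * h)) * (l / q) := by
    field_simp
  rw [e1]
  obtain ⟨g1, g2⟩ := abs_le.1 h1
  set z := T * q / (D * h)
  set w := l / q
  rw [abs_le]
  constructor
  · nlinarith [mul_nonneg (show 0 ≤ z - (1 - δ) by linarith) (show 0 ≤ w by linarith)]
  · nlinarith [mul_nonneg (show 0 ≤ 1 + δ - z by linarith) (show 0 ≤ w by linarith)]

lemma ratio_tendsto : Tendsto (fun x : ℕ => (Real.log x / Real.log (9 * x)) ^ 3) atTop (𝓝 1) := by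
  have h1 : Tendsto (fun x : ℕ => Real.log (x : ℝ)) atTop atTop := Real.tendsto_log_atTop.comp tendsto_natCast_atTop_atTop
  have h2 : Tendsto (fun x : ℕ => 1 / (1 + Real.log 9 / Real.log (x : ℝ))) atTop (𝓝 (1 / (1 + 0))) :=
    tendsto_const_nhds.div (tendsto_const_nhds.add (tendsto_const_nhds.div_atTop h1)) (by norm_num)
  have h3 := h2.pow 3
  norm_num at h3
  refine h3.congr' ?_
  filter_upwards [h1.eventually_gt_atTop 0, eventually_ge_atTop 1] with x hx hx1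
  have hx0 : (0 : ℝ) < x := by exact_mod_cast hx1
  rw [Real.log_mul (by norm_num) hx0.ne']
  have h9 : 0 < Real.log 9 := Real.log_pos (by norm_num)
  rw [div_pow, ← inv_pow]
  rw [← div_pow]
  congr 1
  field_simp
  ring

end Pool.Agent.Results.MP_c0d11e_nt.GrowingSieve

open Pool.Agent.Results.MP_c0d11e_nt.GrowingSieve Pool.Agent.R528.RM

/-- Let `A n` be the event that `n` belongs to a random set `S`, adapted to a filtration `ℱ`, with the
sieving sets `P` and the conditional probabilities as in the header.  Almost surely: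
(1) for both patterns of the problem `P_n ∼ D n / (log n)^3`;
(2) for every `θ > 0`, uniformly for `x^θ ≤ h ≤ x`, `P_(x+h) - P_x ∼ D h / (log x)^3` for both patterns;
(3) for all `k ≥ 1`, `C` and `θ > 0`, uniformly for all intervals `[X, X + h) ⊆ [1, Z)` with `h ≥ Z^θ` and
all systems of `k` forms `a n + b`, `1 ≤ a ≤ Z^C`, `0 ≤ b ≤ Z^C` without fixed prime divisor, the number of
`n` in the interval for which all values are in `S` is `∼ 𝔖 h / ∏ log (a (X + h) + b)`. -/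
theorem Pool.Agent.Results.MP_c0d11e_nt.GrowingSieve.result
    {Ω : Type} [mΩ : MeasurableSpace Ω] (μ : Measure Ω) [IsProbabilityMeasure μ]
    (ℱ : Filtration ℕ mΩ) (A : ℕ → Set Ω) (hA : ∀ n, MeasurableSet[ℱ n] (A n))
    (P : ℕ → Finset ℕ) (hP : ∀ j, ∀ p ∈ P j, p.Prime) (y : ℕ → ℕ)
    (hgrowth : Tendsto (fun j : ℕ => (∑ p ∈ P j, Real.log p) / j) atTop (𝓝 0))
    (hy : Tendsto (fun j : ℕ => (y j : ℝ) * Real.log (y j) / j) atTop atTop)
    (hsmall : ∀ᶠ j : ℕ in atTop, ∀ p : ℕ, p.Prime → p ≤ y j → p ∈ P j)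
    (hcop : ∀ n, (∃ p ∈ P (Nat.log 2 n), p ∣ n) → A n = ∅)
    (hd : ∀ᵐ ω ∂μ, ∀ ε : ℝ, 0 < ε → ∀ᶠ n : ℕ in atTop, (∀ p ∈ P (Nat.log 2 (n + 1)), ¬ p ∣ n + 1) →
      |(μ[(A (n + 1)).indicator (fun _ => (1 : ℝ)) | ℱ n]) ω * Real.log ((n : ℝ) + 1) *
        ∏ p ∈ P (Nat.log 2 (n + 1)), (1 - 1 / (p : ℝ)) - 1| ≤ ε) :
    ∀ᵐ ω ∂μ,
      (Tendsto (fun n : ℕ => (triples {n : ℕ | ω ∈ A n} 2 6 n : ℝ) * Real.log n ^ 3 / (D * n)) atTop (𝓝 1) ∧
        Tendsto (fun n : ℕ => (triples {n : ℕ | ω ∈ A n} 4 6 n : ℝ) * Real.log n ^ 3 / (D * n)) atTop (𝓝 1)) ∧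
      (∀ θ ε : ℝ, 0 < θ → 0 < ε → ∀ᶠ x : ℕ in atTop, ∀ h : ℕ, (x : ℝ) ^ θ ≤ h → h ≤ x →
        |((triples {n : ℕ | ω ∈ A n} 2 6 (x + h) : ℝ) - triples {n : ℕ | ω ∈ A n} 2 6 x) * Real.log x ^ 3 / (D * h) - 1| ≤ ε ∧
        |((triples {n : ℕ | ω ∈ A n} 4 6 (x + h) : ℝ) - triples {n : ℕ | ω ∈ A n} 4 6 x) * Real.log x ^ 3 / (D * h) - 1| ≤ ε) ∧
      (∀ k C : ℕ, 1 ≤ k → ∀ θ ε : ℝ, 0 < θ → 0 < ε → ∀ᶠ Z : ℕ in atTop, ∀ X h : ℕ, 1 ≤ X → X + h ≤ Z → (Z : ℝ) ^ θ ≤ h →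
        ∀ s : Finset (ℕ × ℕ), s.card = k → (∀ f ∈ s, 1 ≤ f.1 ∧ f.1 ≤ Z ^ C ∧ f.2 ≤ Z ^ C) → Admissible s →
        |(count {n : ℕ | ω ∈ A n} s X h : ℝ) * (∏ f ∈ s, Real.log ((f.1 * (X + h) + f.2 : ℕ) : ℝ)) / (sing s * h) - 1| ≤ ε) := by
  classical
  have hW : Tendsto (fun j : ℕ => Real.log (∏ p ∈ P j, p : ℕ) / j) atTop (𝓝 0) := by
    refine hgrowth.congr fun j => ?_
    rw [Nat.cast_prod, Real.log_prod]
    intro p hp
    exact_mod_cast (hP j p hp).ne_zero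
  have hdens := Pool.Agent.N732.GS.dens_growing (μ := μ) (ℱ := ℱ) (A := A) P hP hW hcop (fun ε _ => ε) hd
  filter_upwards [Pool.Agent.N732.GL.forms_law (μ := μ) hA P hP hW y hy hsmall hdens] with ω hω
  have hgen : ∀ k C : ℕ, 1 ≤ k → ∀ θ ε : ℝ, 0 < θ → 0 < ε → ∀ᶠ Z : ℕ in atTop, ∀ X h : ℕ, 1 ≤ X → X + h ≤ Z → (Z : ℝ) ^ θ ≤ h →
        ∀ s : Finset (ℕ × ℕ), s.card = k → (∀ f ∈ s, 1 ≤ f.1 ∧ f.1 ≤ Z ^ C ∧ f.2 ≤ Z ^ C) → Admissible s →
        |(count {n : ℕ | ω ∈ A n} s X h : ℝ) * (∏ f ∈ s, Real.log ((f.1 * (X + h) + f.2 : ℕ) : ℝ)) / (sing s * h) - 1| ≤ ε := by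
    intro k C hk θ ε hθ hε
    filter_upwards [Pool.Agent.N732.GL.intervals_law hω k C hk hθ hε] with Z hZ X h hX hXh hh s hsk hs hadm
    have h1 := hZ X h hX hXh hh s hsk hs hadm
    rw [count_eq] at h1
    exact h1
  have hD : 0 < D := by
    obtain ⟨c, hc0, hc⟩ := Pool.Agent.N732.GL.sing_lower 3
    obtain ⟨g1, g2, g3⟩ := Pool.Agent.N732.GL.tri_facts (a := 2) (b := 6) (Or.inl ⟨rfl, rfl⟩)
    have h1 := hc _ g2 g1 (fun f hf => by
      unfold Pool.Agent.N732.GL.tri at hf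
      simp only [Finset.mem_insert, Finset.mem_singleton] at hf
      rcases hf with rfl | rfl | rfl <;> norm_num)
    rw [g3] at h1
    exact lt_of_lt_of_le hc0 h1
  -- the triples in intervals
  have htri : ∀ a b : ℕ, ((a = 2 ∧ b = 6) ∨ (a = 4 ∧ b = 6)) → ∀ θ ε : ℝ, 0 < θ → 0 < ε → ∀ᶠ Z : ℕ in atTop, ∀ X h : ℕ, 1 ≤ X →
      X + h ≤ Z → (Z : ℝ) ^ θ ≤ h → |(count {n : ℕ | ω ∈ A n} (Pool.Agent.N732.GL.tri a b) X h : ℝ) *
        (Real.log ((X + h : ℕ) : ℝ) * Real.log ((X + h + a : ℕ) : ℝ) * Real.log ((X + h + b : ℕ) : ℝ)) / (D * h) - 1| ≤ ε := by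
    intro a b hab θ ε hθ hε
    obtain ⟨g1, g2, g3⟩ := Pool.Agent.N732.GL.tri_facts hab
    filter_upwards [hgen 3 1 (by norm_num) θ ε hθ hε, eventually_ge_atTop 6] with Z hZ hZ6 X h hX hXh hh
    have h1 := hZ X h hX hXh hh (Pool.Agent.N732.GL.tri a b) g2 (fun f hf => by
      unfold Pool.Agent.N732.GL.tri at hf
      simp only [Finset.mem_insert, Finset.mem_singleton] at hf
      rw [pow_one]
      rcases hf with rfl | rfl | rfl <;> rcases hab with ⟨rfl, rfl⟩ | ⟨rfl, rfl⟩ <;> simp only <;> omega) g1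
    have h2 : sing (Pool.Agent.N732.GL.tri a b) = D := g3
    rw [h2, prod_tri (by rcases hab with ⟨rfl, rfl⟩ | ⟨rfl, rfl⟩ <;> norm_num) (by rcases hab with ⟨rfl, rfl⟩ | ⟨rfl, rfl⟩ <;> norm_num)
      (by rcases hab with ⟨rfl, rfl⟩ | ⟨rfl, rfl⟩ <;> norm_num)] at h1
    exact h1
  -- (2)
  have h2 : ∀ a b : ℕ, ((a = 2 ∧ b = 6) ∨ (a = 4 ∧ b = 6)) → ∀ θ ε : ℝ, 0 < θ → 0 < ε → ∀ᶠ x : ℕ in atTop, ∀ h : ℕ, (x : ℝ) ^ θ ≤ h → h ≤ x →
      |((triples {n : ℕ | ω ∈ A n} a b (x + h) : ℝ) - triples {n : ℕ | ω ∈ A n} a b x) * Real.log x ^ 3 / (D * h) - 1| ≤ ε := by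
    intro a b hab θ ε hθ hε
    obtain ⟨δ, hδ0, hδ1, hδε⟩ : ∃ δ : ℝ, 0 < δ ∧ δ ≤ 1 ∧ 2 * δ ≤ ε :=
      ⟨min (ε / 2) 1, lt_min (by positivity) one_pos, min_le_right _ _, by have := min_le_left (ε / 2) 1; linarith⟩
    have ht : Tendsto (fun x : ℕ => 3 * x) atTop atTop := tendsto_id.const_mul_atTop' (by norm_num)
    have hpow : ∀ᶠ x : ℕ in atTop, ((3 * x : ℕ) : ℝ) ^ (θ / 2) ≤ (x : ℝ) ^ θ := by
      filter_upwards [((tendsto_rpow_atTop (show 0 < θ / 2 by positivity)).comp tendsto_natCast_atTop_atTop).eventually_ge_atTop ((3 : ℝ) ^ (θ / 2)),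
        eventually_ge_atTop 1] with x hx hx1
      have hx0 : (0 : ℝ) < x := by exact_mod_cast hx1
      push_cast
      rw [Real.mul_rpow (by norm_num) hx0.le]
      have e1 : (x : ℝ) ^ θ = (x : ℝ) ^ (θ / 2) * (x : ℝ) ^ (θ / 2) := by
        rw [← Real.rpow_add hx0]
        congr 1
        ring
      rw [e1]
      exact mul_le_mul_of_nonneg_right hx (Real.rpow_nonneg hx0.le _)
    filter_upwards [ht.eventually (htri a b hab (θ / 2) δ (by positivity) hδ0), hpow, ratio_tendsto.eventually (lt_mem_nhds (show 1 - δ < 1 by linarith)),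
      eventually_ge_atTop 3] with x g1 g2 g3 g4 h hh1 hh2
    have hx0 : (3 : ℝ) ≤ x := by exact_mod_cast g4
    have hh0 : (0 : ℝ) < h := lt_of_lt_of_le (Real.rpow_pos_of_pos (by linarith) _) hh1
    have h6 : a ≤ 6 ∧ b ≤ 6 := by rcases hab with ⟨rfl, rfl⟩ | ⟨rfl, rfl⟩ <;> norm_num
    obtain ⟨r1, r2, r3⟩ := ratio_bound (x := x) (v := x + 1 + h) (a := a) (b := b) (δ := δ) g4 (by omega) (by omega) (by omega) g3.le
    rw [triples_add]
    exact (trans_bound hD hh0 r3 hδ0.le hδ1 (g1 (x + 1) h (by omega) (by omega) (g2.trans hh1)) r1 r2).trans hδε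
  -- (1)
  have h1 : ∀ a b : ℕ, ((a = 2 ∧ b = 6) ∨ (a = 4 ∧ b = 6)) →
      Tendsto (fun n : ℕ => (triples {n : ℕ | ω ∈ A n} a b n : ℝ) * Real.log n ^ 3 / (D * n)) atTop (𝓝 1) := by
    intro a b hab
    rw [Metric.tendsto_atTop']
    intro ε hε
    obtain ⟨δ, hδ0, hδ1, hδε⟩ : ∃ δ : ℝ, 0 < δ ∧ δ ≤ 1 ∧ 2 * δ < ε := by
      refine ⟨min (ε / 4) 1, lt_min (by positivity) one_pos, min_le_right _ _, ?_⟩
      have := min_le_left (ε / 4) 1
      linarith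
    have ht : Tendsto (fun x : ℕ => x + 1) atTop atTop := tendsto_add_atTop_nat 1
    have hpow : ∀ᶠ x : ℕ in atTop, ((x + 1 : ℕ) : ℝ) ^ (1 / 2 : ℝ) ≤ x := by
      filter_upwards [eventually_ge_atTop 2] with x hx
      have hx0 : (2 : ℝ) ≤ x := by exact_mod_cast hx
      rw [← Real.sqrt_eq_rpow, Real.sqrt_le_left (by linarith)]
      push_cast
      nlinarith
    have hev := ((ht.eventually (htri a b hab (1 / 2) δ (by norm_num) hδ0)).and (hpow.and ((ratio_tendsto.eventually (lt_mem_nhds (show 1 - δ < 1 by linarith))).and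
      (eventually_ge_atTop 3))))
    obtain ⟨N, hN⟩ := eventually_atTop.1 hev
    refine ⟨N, fun n hn => ?_⟩
    obtain ⟨g1, g2, g3, g4⟩ := hN n (le_of_lt hn)
    have hx0 : (3 : ℝ) ≤ n := by exact_mod_cast g4
    have h6 : a ≤ 6 ∧ b ≤ 6 := by rcases hab with ⟨rfl, rfl⟩ | ⟨rfl, rfl⟩ <;> norm_num
    obtain ⟨r1, r2, r3⟩ := ratio_bound (x := n) (v := 1 + n) (a := a) (b := b) (δ := δ) g4 (by omega) (by omega) (by omega) g3.le
    rw [Real.dist_eq, triples_eq]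
    exact lt_of_le_of_lt (trans_bound hD (by linarith) r3 hδ0.le hδ1 (g1 1 n le_rfl (by omega) g2) r1 r2) hδε
  refine ⟨⟨h1 2 6 (Or.inl ⟨rfl, rfl⟩), h1 4 6 (Or.inr ⟨rfl, rfl⟩)⟩, ?_, hgen⟩
  intro θ ε hθ hε
  filter_upwards [h2 2 6 (Or.inl ⟨rfl, rfl⟩) θ ε hθ hε, h2 4 6 (Or.inr ⟨rfl, rfl⟩) θ ε hθ hε] with x g1 g2 h hh1 hh2
  exact ⟨g1 h hh1 hh2, g2 h hh1 hh2⟩
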